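import Mathlib

/-!
# Pebble motion on trees: some instances need `c N ^ 2 log N` moves
-/

namespace Pool.Agent.Results.MP_3627f5_co.WorstCaseLength

open Finset

/-! ### Definitions -/

/-- A configuration of the pebbles `1, ..., n` on the vertex set `V`: a map
`f : V → {0, 1, ..., n}` such that every pebble `i ≠ 0` is on exactly one vertex;
the vertices mapped to `0` are unoccupied. -/
def IsConfig {V : Type} {n : ℕ} (f : V → Fin (n + 1)) : Prop :=
  ∀ i : Fin (n + 1), i ≠ 0 → ∃! v, f v = i

/-- `Move G f g`: the configuration `g` arises from `f` by shifting one pebble from its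
vertex `u` to an adjacent unoccupied vertex `v` of `G`. -/
def Move {V : Type} (G : SimpleGraph V) {n : ℕ} (f g : V → Fin (n + 1)) : Prop :=
  ∃ u v, G.Adj u v ∧ f u ≠ 0 ∧ f v = 0 ∧ g v = f u ∧ g u = 0 ∧
    ∀ w, w ≠ u → w ≠ v → g w = f w

/-- `f` can be transformed into `g` by a sequence of exactly `L` moves. -/
def SolvableIn {V : Type} (G : SimpleGraph V) {n : ℕ} (f g : V → Fin (n + 1)) (L : ℕ) : Prop :=
  ∃ s : ℕ → V → Fin (n + 1), s 0 = f ∧ s L = g ∧ ∀ t < L, Move G (s t) (s (t + 1))

/-- The minimum number of moves in a sequence transforming `f` into `g`. -/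
noncomputable def minMoves {V : Type} (G : SimpleGraph V) {n : ℕ}
    (f g : V → Fin (n + 1)) : ℕ :=
  sInf {L | SolvableIn G f g L}

/-- `v` is a cut vertex of the connected graph `G`: removing it disconnects the graph. -/
def IsCutVertex {V : Type} (G : SimpleGraph V) (v : V) : Prop :=
  ¬ (G.induce ({v}ᶜ : Set V)).Preconnected

/-- An isthmus of `G`: a path `v_1 ... v_d`, given by its list of vertices, such that each
of its edges is a bridge of `G`, each `v_i` is a cut vertex of `G`, and each inner vertex
has degree `2` in `G`. -/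
def IsIsthmus {V : Type} (G : SimpleGraph V) (l : List V) : Prop :=
  l ≠ [] ∧ l.Nodup ∧ l.IsChain G.Adj ∧
  (∀ (i : ℕ) (h : i + 1 < l.length), G.IsBridge s(l[i], l[i + 1])) ∧
  (∀ v ∈ l, IsCutVertex G v) ∧
  (∀ (i : ℕ) (h : i + 1 < l.length), 0 < i → (G.neighborSet l[i]).ncard = 2)

/-- The number `k` of vertices of a longest isthmus of `G`. -/
noncomputable def longestIsthmus {V : Type} (G : SimpleGraph V) : ℕ :=
  sSup {d | ∃ l : List V, IsIsthmus G l ∧ l.length = d}

/-- `(G, f, g)` is an instance with `N` vertices and `n` pebbles: `G` is a tree, `f` and `g`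
are configurations of `n` pebbles on `G`, and `n + k < N`, where `k` is the number of
vertices of a longest isthmus of `G`. -/
def IsInstance {N n : ℕ} (G : SimpleGraph (Fin N)) (f g : Fin N → Fin (n + 1)) : Prop :=
  G.IsTree ∧ IsConfig f ∧ IsConfig g ∧ n + longestIsthmus G < N

/-! ### The combinatorial core -/

section Core

/-- Discrete intermediate value theorem (downward, natural values). -/
lemma exists_crossing (φ : ℕ → ℕ) (y a b : ℕ) (hab : a ≤ b) (ha : y + 1 ≤ φ a) (hb : φ b ≤ y) :
    ∃ t, a ≤ t ∧ t < b ∧ y + 1 ≤ φ t ∧ φ (t + 1) ≤ y := by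
  classical
  induction b, hab using Nat.le_induction with
  | base => omega
  | succ b hab ih =>
    by_cases h : φ b ≤ y
    · obtain ⟨t, h1, h2, h3, h4⟩ := ih h
      exact ⟨t, h1, by omega, h3, h4⟩
    · exact ⟨b, hab, by omega, by omega, hb⟩

/-- Discrete intermediate value theorem for integer sequences with steps at most one. -/
lemma exists_zero (φ : ℕ → ℤ) (a b : ℕ) (hab : a ≤ b) (ha : 0 ≤ φ a) (hb : φ b ≤ 0)
    (hstep : ∀ t, a ≤ t → t < b → |φ (t + 1) - φ t| ≤ 1) :
    ∃ t, a ≤ t ∧ t ≤ b ∧ φ t = 0 := by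
  classical
  induction b, hab using Nat.le_induction with
  | base => exact ⟨a, le_rfl, le_rfl, le_antisymm hb ha⟩
  | succ b hab ih =>
    by_cases h : φ b ≤ 0
    · obtain ⟨t, h1, h2, h3⟩ := ih h (fun t h1 h2 => hstep t h1 (by omega))
      exact ⟨t, h1, by omega, h3⟩
    · have := hstep b hab (by omega)
      rw [abs_le] at this
      exact ⟨b + 1, by omega, le_rfl, by omega⟩

variable {n : ℕ} (L : ℕ) (X : ℕ → Fin n → ℤ) (μ : ℕ → Fin n)

/-- The scale of the move at time `t`. -/
def scale (t : ℕ) : ℕ := min (X t (μ t)).natAbs (X (t + 1) (μ t)).natAbs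

/-- The times before `t` of the moves in the shell `[r, 2r]`. -/
def shell (r t : ℕ) : Finset ℕ :=
  (range t).filter (fun t' => r ≤ scale X μ t' ∧ scale X μ t' < 2 * r)

lemma shell_mono (r : ℕ) {t t' : ℕ} (h : t ≤ t') : shell X μ r t ⊆ shell X μ r t' := by
  intro u hu
  simp only [shell, mem_filter, mem_range] at hu ⊢
  exact ⟨by omega, hu.2⟩

lemma shell_card_lt (r : ℕ) {t t' : ℕ} (h : t < t') (ht : r ≤ scale X μ t ∧ scale X μ t < 2 * r) :
    (shell X μ r t).card < (shell X μ r t').card := by
  apply card_lt_card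
  refine ⟨shell_mono X μ r h.le, fun hc => ?_⟩
  have h1 : t ∈ shell X μ r t' := by
    simp only [shell, mem_filter, mem_range]; exact ⟨h, ht⟩
  have h2 := hc h1
  simp only [shell, mem_filter, mem_range] at h2
  omega

/-- A pebble that starts at distance at least `2r` and reaches the centre makes at least `r`
moves inside the shell. -/
lemma crossing_count
    (hmove : ∀ t < L, |X (t + 1) (μ t) - X t (μ t)| ≤ 1)
    (hstay : ∀ t < L, ∀ b, b ≠ μ t → X (t + 1) b = X t b)
    (r : ℕ) (i : Fin n) (a b : ℕ) (hab : a ≤ b) (hbL : b ≤ L)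
    (ha : 2 * r ≤ (X a i).natAbs) (hb : X b i = 0) :
    r ≤ ((Ico a b).filter (fun t => μ t = i ∧ (r ≤ scale X μ t ∧ scale X μ t < 2 * r))).card := by
  classical
  have key : ∀ y, r ≤ y → y < 2 * r → ∃ t, a ≤ t ∧ t < b ∧ μ t = i ∧ scale X μ t = y := by
    intro y hy1 hy2
    obtain ⟨t, h1, h2, h3, h4⟩ := exists_crossing (fun t => (X t i).natAbs) y a b hab
      (by omega) (by simp [hb])
    have hmu : μ t = i := by
      by_contra hne
      have := hstay t (by omega) i (fun h => hne h.symm)
      rw [this] at h4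
      omega
    refine ⟨t, h1, h2, hmu, ?_⟩
    have hm := hmove t (by omega)
    rw [hmu, abs_le] at hm
    unfold scale
    rw [hmu]
    omega
  choose! τ h1 h2 h3 h4 using key
  calc r = (Ico r (2 * r)).card := by simp; omega
    _ ≤ _ := by
      apply card_le_card_of_injOn τ
      · intro y hy
        simp only [coe_Ico, Set.mem_Ico] at hy
        simp only [mem_coe, mem_filter, mem_Ico]
        refine ⟨⟨h1 y hy.1 hy.2, h2 y hy.1 hy.2⟩, h3 y hy.1 hy.2, ?_⟩
        rw [h4 y hy.1 hy.2]
        exact hy
      · intro y hy z hz hyz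
        simp only [coe_Ico, Set.mem_Ico] at hy hz
        rw [← h4 y hy.1 hy.2, ← h4 z hz.1 hz.2, hyz]

/-- In one block of times only `5r` pebbles visit the centre. -/
lemma block_visitors
    (hmove : ∀ t < L, |X (t + 1) (μ t) - X t (μ t)| ≤ 1)
    (hstay : ∀ t < L, ∀ b, b ≠ μ t → X (t + 1) b = X t b)
    (hcap : ∀ t ≤ L, ∀ r : ℕ, (univ.filter (fun i => (X t i).natAbs < 2 * r)).card ≤ 4 * r)
    (r : ℕ) (hr : 1 ≤ r) (q : ℕ) (A : Finset (Fin n))
    (hA : ∀ i ∈ A, ∃ t ≤ L, (shell X μ r t).card / r ^ 2 = q ∧ X t i = 0) :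
    A.card ≤ 5 * r := by
  classical
  rcases A.eq_empty_or_nonempty with rfl | ⟨i₀, hi₀⟩
  · simp
  have hex : ∃ t, t ≤ L ∧ (shell X μ r t).card / r ^ 2 = q := by
    obtain ⟨t, h1, h2, _⟩ := hA i₀ hi₀
    exact ⟨t, h1, h2⟩
  set t₀ := Nat.find hex with ht₀
  have ht₀s : t₀ ≤ L ∧ (shell X μ r t₀).card / r ^ 2 = q := Nat.find_spec hex
  have hr2 : 0 < r ^ 2 := by positivity
  -- the shell moves of the block
  set S : Finset ℕ := (range L).filter (fun t => (r ≤ scale X μ t ∧ scale X μ t < 2 * r) ∧
    (shell X μ r t).card / r ^ 2 = q) with hS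
  have hScard : S.card ≤ r ^ 2 := by
    calc S.card ≤ (Ico (q * r ^ 2) ((q + 1) * r ^ 2)).card := by
          apply card_le_card_of_injOn (fun t => (shell X μ r t).card)
          · intro t ht
            simp only [hS, mem_coe, mem_filter, mem_range] at ht
            simp only [coe_Ico, Set.mem_Ico]
            have h3 := ht.2.2
            rw [Nat.div_eq_iff hr2] at h3
            constructor
            · omega
            · have : (q + 1) * r ^ 2 = q * r ^ 2 + r ^ 2 := by ring
              omega
          · intro t ht t' ht' htt'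
            simp only [hS, mem_coe, mem_filter, mem_range] at ht ht'
            simp only at htt'
            rcases lt_trichotomy t t' with h | h | h
            · have := shell_card_lt X μ r h ht.2.1
              omega
            · exact h
            · have := shell_card_lt X μ r h ht'.2.1
              omega
      _ = r ^ 2 := by
          rw [Nat.card_Ico]
          have : (q + 1) * r ^ 2 = q * r ^ 2 + r ^ 2 := by ring
          omega
  -- split the visitors
  set A₁ := A.filter (fun i => (X t₀ i).natAbs < 2 * r) with hA₁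
  set A₂ := A.filter (fun i => ¬ (X t₀ i).natAbs < 2 * r) with hA₂
  have hsplit : A₁.card + A₂.card = A.card := card_filter_add_card_filter_not _
  have h1 : A₁.card ≤ 4 * r := by
    refine le_trans (card_le_card ?_) (hcap t₀ ht₀s.1 r)
    intro i hi
    simp only [hA₁, mem_filter] at hi
    simp only [mem_filter, mem_univ, true_and]
    exact hi.2
  have h2 : r * A₂.card ≤ r ^ 2 := by
    have hone : ∀ i ∈ A₂, r ≤ (S.filter (fun t => μ t = i)).card := by
      intro i hi
      simp only [hA₂, mem_filter, not_lt] at hi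
      obtain ⟨t, htL, htq, htX⟩ := hA i hi.1
      have ht₀t : t₀ ≤ t := Nat.find_min' hex ⟨htL, htq⟩
      refine le_trans (crossing_count L X μ hmove hstay r i t₀ t ht₀t htL hi.2 htX)
        (card_le_card ?_)
      intro u hu
      simp only [mem_filter, mem_Ico] at hu
      simp only [hS, mem_filter, mem_range]
      refine ⟨⟨by omega, hu.2.2, ?_⟩, hu.2.1⟩
      apply le_antisymm
      · rw [← htq]
        exact Nat.div_le_div_right (card_le_card (shell_mono X μ r (by omega)))
      · calc q = (shell X μ r t₀).card / r ^ 2 := ht₀s.2.symm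
          _ ≤ _ := Nat.div_le_div_right (card_le_card (shell_mono X μ r hu.1.1))
    calc r * A₂.card = ∑ _i ∈ A₂, r := by rw [sum_const, smul_eq_mul, mul_comm]
      _ ≤ ∑ i ∈ A₂, (S.filter (fun t => μ t = i)).card := sum_le_sum hone
      _ = (A₂.biUnion (fun i => S.filter (fun t => μ t = i))).card := by
          rw [card_biUnion]
          intro i _ j _ hij
          rw [Function.onFun, disjoint_left]
          intro t ht ht'
          simp only [mem_filter] at ht ht'
          exact hij (ht.2.symm.trans ht'.2)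
      _ ≤ S.card := card_le_card (by
          intro t ht
          simp only [mem_biUnion, mem_filter] at ht
          obtain ⟨_, _, h, _⟩ := ht
          exact h)
      _ ≤ r ^ 2 := hScard
  have h3 : A₂.card ≤ r := by
    have : r * A₂.card ≤ r * r := by rw [← pow_two]; exact h2
    exact Nat.le_of_mul_le_mul_left this hr
  omega

/-- The main counting estimate at scale `r`. -/
lemma shell_bound
    (hmove : ∀ t < L, |X (t + 1) (μ t) - X t (μ t)| ≤ 1)
    (hstay : ∀ t < L, ∀ b, b ≠ μ t → X (t + 1) b = X t b)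
    (hcap : ∀ t ≤ L, ∀ r : ℕ, (univ.filter (fun i => (X t i).natAbs < 2 * r)).card ≤ 4 * r)
    (hmeet : ∀ a b, a ≠ b → ∃ t ≤ L, X t a = 0 ∧ X t b = 0)
    (r : ℕ) (hr : 1 ≤ r) :
    n * (n - 1) ≤ 25 * (shell X μ r L).card + 25 * r ^ 2 := by
  classical
  set M := (shell X μ r L).card with hM
  have hr2 : 0 < r ^ 2 := by positivity
  set A : ℕ → Finset (Fin n) := fun q =>
    univ.filter (fun i => ∃ t ≤ L, (shell X μ r t).card / r ^ 2 = q ∧ X t i = 0) with hA
  have hAcard : ∀ q, (A q).card ≤ 5 * r := by
    intro q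
    apply block_visitors L X μ hmove hstay hcap r hr q
    intro i hi
    simp only [hA, mem_filter, mem_univ, true_and] at hi
    exact hi
  have hcover : (univ : Finset (Fin n)).offDiag ⊆
      (range (M / r ^ 2 + 1)).biUnion (fun q => A q ×ˢ A q) := by
    intro p hp
    rw [mem_offDiag] at hp
    obtain ⟨t, htL, h1, h2⟩ := hmeet p.1 p.2 hp.2.2
    rw [mem_biUnion]
    refine ⟨(shell X μ r t).card / r ^ 2, ?_, ?_⟩
    · rw [mem_range, Nat.lt_succ_iff]
      exact Nat.div_le_div_right (card_le_card (shell_mono X μ r htL))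
    · rw [mem_product]
      simp only [hA, mem_filter, mem_univ, true_and]
      exact ⟨⟨t, htL, rfl, h1⟩, ⟨t, htL, rfl, h2⟩⟩
  calc n * (n - 1) = (univ : Finset (Fin n)).offDiag.card := by
        rw [offDiag_card, card_univ, Fintype.card_fin, Nat.mul_sub, mul_one]
    _ ≤ ((range (M / r ^ 2 + 1)).biUnion (fun q => A q ×ˢ A q)).card := card_le_card hcover
    _ ≤ (range (M / r ^ 2 + 1)).card * (5 * r) ^ 2 := by
        apply card_biUnion_le_card_mul
        intro q _
        rw [card_product, ← pow_two]
        exact Nat.pow_le_pow_left (hAcard q) 2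
    _ = 25 * (M / r ^ 2 * r ^ 2) + 25 * r ^ 2 := by
        rw [card_range]; ring
    _ ≤ 25 * M + 25 * r ^ 2 := by
        have := Nat.div_mul_le_self M (r ^ 2)
        omega

/-- Summing over dyadic scales. -/
lemma total_bound
    (hmove : ∀ t < L, |X (t + 1) (μ t) - X t (μ t)| ≤ 1)
    (hstay : ∀ t < L, ∀ b, b ≠ μ t → X (t + 1) b = X t b)
    (hcap : ∀ t ≤ L, ∀ r : ℕ, (univ.filter (fun i => (X t i).natAbs < 2 * r)).card ≤ 4 * r)
    (hmeet : ∀ a b, a ≠ b → ∃ t ≤ L, X t a = 0 ∧ X t b = 0)
    (J : ℕ) (hJ : ∀ j < J, 50 * (2 ^ j) ^ 2 ≤ n * (n - 1)) :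
    J * (n * (n - 1)) ≤ 50 * L := by
  classical
  have h1 : ∑ j ∈ range J, (shell X μ (2 ^ j) L).card ≤ L := by
    calc ∑ j ∈ range J, (shell X μ (2 ^ j) L).card
        = ((range J).biUnion (fun j => shell X μ (2 ^ j) L)).card := by
          rw [card_biUnion]
          intro i _ j _ hij
          rw [Function.onFun, disjoint_left]
          intro t ht ht'
          simp only [shell, mem_filter, mem_range] at ht ht'
          rcases lt_or_gt_of_ne hij with h | h
          · have : 2 * 2 ^ i ≤ 2 ^ j := by
              rw [← pow_succ']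
              exact Nat.pow_le_pow_right (by norm_num) h
            omega
          · have : 2 * 2 ^ j ≤ 2 ^ i := by
              rw [← pow_succ']
              exact Nat.pow_le_pow_right (by norm_num) h
            omega
      _ ≤ (range L).card := card_le_card (by
          intro t ht
          simp only [mem_biUnion, shell, mem_filter] at ht
          obtain ⟨_, _, h, _⟩ := ht
          exact h)
      _ = L := card_range L
  have h2 : ∀ j ∈ range J, n * (n - 1) ≤ 50 * (shell X μ (2 ^ j) L).card := by
    intro j hj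
    rw [mem_range] at hj
    have h3 := shell_bound L X μ hmove hstay hcap hmeet (2 ^ j) Nat.one_le_two_pow
    have h4 := hJ j hj
    omega
  calc J * (n * (n - 1)) = ∑ _j ∈ range J, n * (n - 1) := by
        rw [sum_const, card_range, smul_eq_mul]
    _ ≤ ∑ j ∈ range J, 50 * (shell X μ (2 ^ j) L).card := sum_le_sum h2
    _ = 50 * ∑ j ∈ range J, (shell X μ (2 ^ j) L).card := by rw [mul_sum]
    _ ≤ 50 * L := Nat.mul_le_mul_left _ h1

end Core

/-! ### The trees -/

section Tree

/-- The tree: a path on the vertices `0, ..., N - 2` and a leaf `N - 1` attached to `m`. -/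
def tee (N m : ℕ) : SimpleGraph (Fin N) where
  Adj u v := u ≠ v ∧ ((u.val + 1 = v.val ∧ v.val + 1 < N) ∨ (v.val + 1 = u.val ∧ u.val + 1 < N) ∨
    (u.val = m ∧ v.val + 1 = N) ∨ (v.val = m ∧ u.val + 1 = N))
  symm := ⟨by
    intro u v h
    refine ⟨h.1.symm, ?_⟩
    tauto⟩
  loopless := ⟨fun u h => h.1 rfl⟩

lemma tee_adj {N m : ℕ} {u v : Fin N} : (tee N m).Adj u v ↔
    u ≠ v ∧ ((u.val + 1 = v.val ∧ v.val + 1 < N) ∨ (v.val + 1 = u.val ∧ u.val + 1 < N) ∨
    (u.val = m ∧ v.val + 1 = N) ∨ (v.val = m ∧ u.val + 1 = N)) := Iff.rfl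

variable {N m : ℕ}

lemma tee_reachable (hm : 1 ≤ m) (hN : 2 * m + 2 ≤ N) (k : ℕ) (hk : k < N) :
    (tee N m).Reachable ⟨k, hk⟩ ⟨0, by omega⟩ := by
  induction k using Nat.strong_induction_on with
  | _ k ih =>
    rcases Nat.eq_zero_or_pos k with rfl | hpos
    · exact SimpleGraph.Reachable.refl _
    by_cases hkN : k + 1 = N
    · refine SimpleGraph.Reachable.trans (SimpleGraph.Adj.reachable ?_) (ih m (by omega) (by omega))
      rw [tee_adj]
      exact ⟨by rw [Ne, Fin.ext_iff]; simp only; omega, Or.inr (Or.inr (Or.inr ⟨rfl, hkN⟩))⟩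
    · refine SimpleGraph.Reachable.trans (SimpleGraph.Adj.reachable ?_)
        (ih (k - 1) (by omega) (by omega))
      rw [tee_adj]
      refine ⟨by rw [Ne, Fin.ext_iff]; simp only; omega, ?_⟩
      simp only
      omega

lemma tee_connected (hm : 1 ≤ m) (hN : 2 * m + 2 ≤ N) : (tee N m).Connected := by
  have : Nonempty (Fin N) := ⟨⟨0, by omega⟩⟩
  refine ⟨fun u v => ?_⟩
  exact (tee_reachable hm hN u.val u.isLt).trans (tee_reachable hm hN v.val v.isLt).symm

lemma tee_isTree (hm : 1 ≤ m) (hN : 2 * m + 2 ≤ N) : (tee N m).IsTree := by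
  classical
  rw [SimpleGraph.isTree_iff_connected_and_card]
  refine ⟨tee_connected hm hN, ?_⟩
  have h1 := (tee_connected hm hN).card_vert_le_card_edgeSet_add_one
  have h2 : Nat.card (tee N m).edgeSet + 1 ≤ Nat.card (Fin N) := by
    rw [Nat.card_coe_set_eq]
    have hsub : (tee N m).edgeSet ⊆ (fun k : ℕ => if h : k + 2 < N then
        s((⟨k, by omega⟩ : Fin N), ⟨k + 1, by omega⟩) else
        s((⟨m, by omega⟩ : Fin N), ⟨N - 1, by omega⟩)) '' (Set.Iio (N - 1)) := by
      intro e he
      induction e using Sym2.ind with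
      | _ u v =>
        rw [SimpleGraph.mem_edgeSet, tee_adj] at he
        obtain ⟨_, h | h | h | h⟩ := he
        · refine ⟨u.val, ?_, ?_⟩
          · rw [Set.mem_Iio]; omega
          · have h3 : u.val + 2 < N := by omega
            simp only [h3, dif_pos]
            exact congrArg₂ (fun a b => s(a, b)) (Fin.ext rfl) (Fin.ext (by simp only; omega))
        · refine ⟨v.val, ?_, ?_⟩
          · rw [Set.mem_Iio]; omega
          · have h3 : v.val + 2 < N := by omega
            simp only [h3, dif_pos]
            rw [Sym2.eq_swap]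
            exact congrArg₂ (fun a b => s(a, b)) (Fin.ext (by simp only; omega)) (Fin.ext rfl)
        · refine ⟨N - 2, ?_, ?_⟩
          · rw [Set.mem_Iio]; omega
          · have h3 : ¬ (N - 2 + 2 < N) := by omega
            simp only [h3, dif_neg, not_false_eq_true]
            exact congrArg₂ (fun a b => s(a, b)) (Fin.ext (by simp only; omega))
              (Fin.ext (by simp only; omega))
        · refine ⟨N - 2, ?_, ?_⟩
          · rw [Set.mem_Iio]; omega
          · have h3 : ¬ (N - 2 + 2 < N) := by omega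
            simp only [h3, dif_neg, not_false_eq_true]
            rw [Sym2.eq_swap]
            exact congrArg₂ (fun a b => s(a, b)) (Fin.ext (by simp only; omega))
              (Fin.ext (by simp only; omega))
    have h3 := Set.ncard_le_ncard hsub (Set.Finite.image _ (Set.finite_Iio _))
    have h4 : ((fun k : ℕ => if h : k + 2 < N then
        s((⟨k, by omega⟩ : Fin N), ⟨k + 1, by omega⟩) else
        s((⟨m, by omega⟩ : Fin N), ⟨N - 1, by omega⟩)) '' (Set.Iio (N - 1))).ncard ≤
        (Set.Iio (N - 1)).ncard := Set.ncard_image_le (Set.finite_Iio _)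
    have h5 : (Set.Iio (N - 1)).ncard = N - 1 := by
      rw [Set.ncard_eq_toFinset_card', Set.toFinset_Iio, Nat.card_Iio]
    rw [Nat.card_eq_fintype_card, Fintype.card_fin]
    omega
  exact le_antisymm h2 h1

/-- The leaf `N - 1` is not a cut vertex. -/
lemma not_cut_stub (hm : 1 ≤ m) (hN : 2 * m + 2 ≤ N) (v : Fin N) (hv : v.val + 1 = N) :
    ¬ IsCutVertex (tee N m) v := by
  classical
  unfold IsCutVertex
  rw [not_not]
  refine ((tee_connected hm hN).induce_compl_singleton_of_degree_eq_one ?_).preconnected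
  rw [SimpleGraph.degree_eq_one_iff_existsUnique_adj]
  refine ⟨⟨m, by omega⟩, ?_, ?_⟩
  · change (tee N m).Adj v ⟨m, _⟩
    rw [tee_adj]
    exact ⟨by rw [Ne, Fin.ext_iff]; simp only; omega, Or.inr (Or.inr (Or.inr ⟨rfl, hv⟩))⟩
  · intro w hw
    rw [tee_adj] at hw
    rw [Fin.ext_iff]
    simp only
    omega

/-- The junction has more than two neighbours. -/
lemma junction_degree (hm : 1 ≤ m) (hN : 2 * m + 2 ≤ N) (v : Fin N) (hv : v.val = m) :
    ((tee N m).neighborSet v).ncard ≠ 2 := by
  classical
  have hsub : (({⟨m - 1, by omega⟩, ⟨m + 1, by omega⟩, ⟨N - 1, by omega⟩} : Finset (Fin N)) :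
      Set (Fin N)) ⊆ (tee N m).neighborSet v := by
    intro w hw
    simp only [Finset.coe_insert, Finset.coe_singleton, Set.mem_insert_iff,
      Set.mem_singleton_iff, Fin.ext_iff] at hw
    rw [SimpleGraph.mem_neighborSet, tee_adj, Ne, Fin.ext_iff]
    omega
  have h1 := Set.ncard_le_ncard hsub (Set.toFinite _)
  rw [Set.ncard_coe_finset] at h1
  have h2 : ({⟨m - 1, by omega⟩, ⟨m + 1, by omega⟩, ⟨N - 1, by omega⟩} :
      Finset (Fin N)).card = 3 := by
    rw [Finset.card_eq_three]
    refine ⟨_, _, _, ?_, ?_, ?_, rfl⟩ <;> rw [Ne, Fin.ext_iff] <;> simp only <;> omega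
  omega

/-- Every isthmus of the tree has at most `N - 1 - m` vertices. -/
lemma isthmus_length (hm : 1 ≤ m) (hN : 2 * m + 2 ≤ N) (l : List (Fin N))
    (hl : IsIsthmus (tee N m) l) : l.length ≤ N - 1 - m := by
  classical
  obtain ⟨hne, hnd, hch, hbr, hcut, hdeg⟩ := hl
  have hstub : ∀ v ∈ l, v.val + 1 ≠ N := fun v hv h => not_cut_stub hm hN v h (hcut v hv)
  -- the values along the list change by one
  have hstep : ∀ (i : ℕ) (h : i + 1 < l.length),
      (l[i].val + 1 = l[i + 1].val ∨ l[i + 1].val + 1 = l[i].val) := by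
    intro i h
    have h1 := List.isChain_iff_getElem.mp hch i h
    rw [tee_adj] at h1
    have h2 := hstub l[i] (List.getElem_mem _)
    have h3 := hstub l[i + 1] (List.getElem_mem _)
    omega
  -- no interior vertex is the junction
  have hint : ∀ (i : ℕ) (h : i + 1 < l.length), 0 < i → l[i].val ≠ m :=
    fun i h hi hv => junction_degree hm hN _ hv (hdeg i h hi)
  by_cases hleft : ∃ i, ∃ h : i < l.length, l[i].val < m
  · by_cases hright : ∃ j, ∃ h : j < l.length, m < l[j].val
    · exfalso
      obtain ⟨i, hi, him⟩ := hleft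
      obtain ⟨j, hj, hjm⟩ := hright
      set φ : ℕ → ℤ := fun k => if h : k < l.length then (l[k].val : ℤ) - m else 0 with hφ
      have hφs : ∀ t, t + 1 < l.length → |φ (t + 1) - φ t| ≤ 1 := by
        intro t ht
        have h1 := hstep t ht
        have h2 : t < l.length := by omega
        simp only [hφ, ht, h2, dif_pos, abs_le]
        omega
      have hφi : φ i < 0 := by simp only [hφ, hi, dif_pos]; omega
      have hφj : 0 < φ j := by simp only [hφ, hj, dif_pos]; omega
      have hzero : ∃ t, (min i j < t ∧ t < max i j) ∧ φ t = 0 := by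
        rcases lt_trichotomy i j with h | h | h
        · obtain ⟨t, h1, h2, h3⟩ := exists_zero (fun t => - φ t) i j h.le
            (by omega) (by omega) (by
              intro t h1 h2
              have := hφs t (by omega)
              rw [abs_le] at this ⊢
              omega)
          refine ⟨t, ?_, by omega⟩
          have : t ≠ i := by rintro rfl; omega
          have : t ≠ j := by rintro rfl; omega
          omega
        · subst h; omega
        · obtain ⟨t, h1, h2, h3⟩ := exists_zero φ j i h.le hφj.le hφi.le (by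
              intro t h1 h2
              exact hφs t (by omega))
          refine ⟨t, ?_, by omega⟩
          have : t ≠ i := by rintro rfl; omega
          have : t ≠ j := by rintro rfl; omega
          omega
      obtain ⟨t, ⟨h1, h2⟩, h3⟩ := hzero
      have h4 : t + 1 < l.length := by omega
      have h5 : t < l.length := by omega
      refine hint t h4 (by omega) ?_
      simp only [hφ, h5, dif_pos] at h3
      omega
    · -- all vertices are at most `m`
      push Not at hright
      have hsub : l.toFinset ⊆ (Finset.range (m + 1)).attachFin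
          (fun k hk => by rw [Finset.mem_range] at hk; omega) := by
        intro v hv
        rw [List.mem_toFinset, List.mem_iff_getElem] at hv
        obtain ⟨i, hi, rfl⟩ := hv
        rw [Finset.mem_attachFin, Finset.mem_range]
        have := hright i hi
        omega
      have h1 := Finset.card_le_card hsub
      rw [List.toFinset_card_of_nodup hnd, Finset.card_attachFin, Finset.card_range] at h1
      omega
  · -- all vertices are at least `m`
    push Not at hleft
    have hsub : l.toFinset ⊆ (Finset.Ico m (N - 1)).attachFin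
        (fun k hk => by rw [Finset.mem_Ico] at hk; omega) := by
      intro v hv
      rw [List.mem_toFinset] at hv
      have h2 := hstub v hv
      rw [List.mem_iff_getElem] at hv
      obtain ⟨i, hi, rfl⟩ := hv
      rw [Finset.mem_attachFin, Finset.mem_Ico]
      have := hleft i hi
      have := l[i].isLt
      omega
    have h1 := Finset.card_le_card hsub
    rw [List.toFinset_card_of_nodup hnd, Finset.card_attachFin, Nat.card_Ico] at h1
    omega

lemma longestIsthmus_tee (hm : 1 ≤ m) (hN : 2 * m + 2 ≤ N) :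
    longestIsthmus (tee N m) ≤ N - 1 - m := by
  unfold longestIsthmus
  rcases Set.eq_empty_or_nonempty {d | ∃ l : List (Fin N), IsIsthmus (tee N m) l ∧ l.length = d}
    with h | h
  · rw [h]; simp
  · apply csSup_le h
    rintro d ⟨l, hl, rfl⟩
    exact isthmus_length hm hN l hl

end Tree

/-! ### The lower bound -/

section Lower

/-- The pebbles `1, ..., m` on the vertices `m - 1, ..., 0`. -/
def startConf (N m : ℕ) : Fin N → Fin (m + 1) :=
  fun v => ⟨m - v.val, by omega⟩

/-- The pebbles `1, ..., m` on the vertices `0, ..., m - 1`. -/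
def endConf (N m : ℕ) : Fin N → Fin (m + 1) :=
  fun v => if h : v.val < m then ⟨v.val + 1, by omega⟩ else 0

lemma isConfig_start {N m : ℕ} (hN : 2 * m + 2 ≤ N) : IsConfig (startConf N m) := by
  intro i hi
  have hi' : i.val ≠ 0 := fun h => hi (Fin.ext h)
  have := i.isLt
  refine ⟨⟨m - i.val, by omega⟩, ?_, ?_⟩
  · simp only [startConf, Fin.ext_iff]
    omega
  · intro v hv
    simp only [startConf, Fin.ext_iff] at hv ⊢
    omega

lemma isConfig_end {N m : ℕ} (hN : 2 * m + 2 ≤ N) : IsConfig (endConf N m) := by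
  intro i hi
  have hi' : i.val ≠ 0 := fun h => hi (Fin.ext h)
  have := i.isLt
  refine ⟨⟨i.val - 1, by omega⟩, ?_, ?_⟩
  · have h : i.val - 1 < m := by omega
    simp only [endConf, h, dif_pos, Fin.ext_iff]
    omega
  · intro v hv
    simp only [endConf] at hv
    split_ifs at hv with h
    · rw [Fin.ext_iff] at hv ⊢
      simp only at hv ⊢
      omega
    · exact absurd hv.symm hi

lemma Move.isConfig {V : Type} {G : SimpleGraph V} {n : ℕ} {f g : V → Fin (n + 1)}
    (h : Move G f g) (hf : IsConfig f) : IsConfig g := by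
  obtain ⟨u, v, huv, hu, hv, hgv, hgu, hw⟩ := h
  intro i hi
  by_cases hiu : i = f u
  · subst hiu
    refine ⟨v, hgv, ?_⟩
    intro w hw'
    by_contra hwv
    by_cases hwu : w = u
    · rw [hwu, hgu] at hw'
      exact hi hw'.symm
    · rw [hw w hwu hwv] at hw'
      exact hwu ((hf (f u) hi).unique hw' rfl)
  · obtain ⟨w, hw1, hw2⟩ := hf i hi
    have hwu : w ≠ u := by rintro rfl; exact hiu hw1.symm
    have hwv : w ≠ v := by
      rintro rfl
      rw [hv] at hw1
      exact hi hw1.symm
    refine ⟨w, by simp only [hw w hwu hwv, hw1], ?_⟩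
    intro w' hw'
    have h1 : w' ≠ v := by
      rintro rfl
      rw [hgv] at hw'
      exact hiu hw'.symm
    have h2 : w' ≠ u := by
      rintro rfl
      rw [hgu] at hw'
      exact hi hw'.symm
    rw [hw w' h2 h1] at hw'
    exact hw2 w' hw'

lemma IsConfig.exists_pos {V : Type} {n : ℕ} {f : V → Fin (n + 1)} (hf : IsConfig f) :
    ∃ p : Fin n → V, ∀ i v, f v = i.succ ↔ v = p i := by
  have h : ∀ i : Fin n, ∃ w, ∀ v, f v = i.succ ↔ v = w := by
    intro i
    obtain ⟨w, h1, h2⟩ := hf i.succ (Fin.succ_ne_zero i)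
    exact ⟨w, fun v => ⟨h2 v, fun h => h ▸ h1⟩⟩
  choose p hp using h
  exact ⟨p, hp⟩

/-- The coordinate of a vertex. -/
def coord {N : ℕ} (m : ℕ) (v : Fin N) : ℤ := if v.val + 1 = N then 0 else (v.val : ℤ) - m

lemma coord_adj {N m : ℕ} {u v : Fin N} (h : (tee N m).Adj u v) :
    |coord m v - coord m u| ≤ 1 := by
  rw [tee_adj] at h
  unfold coord
  rw [abs_le]
  split_ifs <;> omega

lemma lower_bound {N m : ℕ} (hm : 1 ≤ m) (hN : 2 * m + 2 ≤ N) (L : ℕ)
    (h : SolvableIn (tee N m) (startConf N m) (endConf N m) L) (J : ℕ)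
    (hJ : ∀ j < J, 50 * (2 ^ j) ^ 2 ≤ m * (m - 1)) :
    J * (m * (m - 1)) ≤ 50 * L := by
  classical
  obtain ⟨s, hs0, hsL, hs⟩ := h
  have hconf : ∀ t, t ≤ L → IsConfig (s t) := by
    intro t
    induction t with
    | zero => intro _; rw [hs0]; exact isConfig_start hN
    | succ t ih => intro ht; exact (hs t (by omega)).isConfig (ih (by omega))
  have hP : ∀ t, ∃ p : Fin m → Fin N, t ≤ L → ∀ i v, s t v = i.succ ↔ v = p i := by
    intro t
    by_cases ht : t ≤ L
    · obtain ⟨p, hp⟩ := (hconf t ht).exists_pos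
      exact ⟨p, fun _ => hp⟩
    · exact ⟨fun _ => ⟨0, by omega⟩, fun h => absurd h ht⟩
  choose P hP using hP
  have hmu : ∀ t, ∃ i : Fin m, t < L → (tee N m).Adj (P t i) (P (t + 1) i) ∧
      ∀ b, b ≠ i → P (t + 1) b = P t b := by
    intro t
    by_cases ht : t < L
    · obtain ⟨u, v, huv, hu, hv, hgv, hgu, hw⟩ := hs t ht
      obtain ⟨i, hi⟩ := Fin.exists_succ_eq.mpr hu
      have hPi : u = P t i := (hP t ht.le i u).mp hi.symm
      have hPi' : v = P (t + 1) i := (hP (t + 1) ht i v).mp (hgv.trans hi.symm)
      refine ⟨i, fun _ => ⟨hPi ▸ hPi' ▸ huv, ?_⟩⟩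
      intro b hb
      have h1 : s t (P t b) = b.succ := (hP t ht.le b _).mpr rfl
      have h2 : P t b ≠ u := by
        intro h
        rw [h, ← hi] at h1
        exact hb (Fin.succ_injective _ h1).symm
      have h3 : P t b ≠ v := by
        intro h
        rw [h, hv] at h1
        exact (Fin.succ_ne_zero b) h1.symm
      have h4 : s (t + 1) (P t b) = b.succ := by rw [hw _ h2 h3, h1]
      exact ((hP (t + 1) ht b _).mp h4).symm
    · exact ⟨⟨0, by omega⟩, fun h => absurd h ht⟩
  choose μ hμ using hmu
  have hinj : ∀ t ≤ L, Function.Injective (P t) := by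
    intro t ht a b hab
    have h1 : s t (P t a) = a.succ := (hP t ht a _).mpr rfl
    have h2 : s t (P t b) = b.succ := (hP t ht b _).mpr rfl
    rw [hab, h2] at h1
    exact (Fin.succ_injective _ h1).symm
  set X : ℕ → Fin m → ℤ := fun t i => coord m (P t i) with hX
  have hstart : ∀ i : Fin m, X 0 i = -1 - (i.val : ℤ) := by
    intro i
    have h1 : s 0 ⟨m - 1 - i.val, by omega⟩ = i.succ := by
      rw [hs0]
      simp only [startConf, Fin.ext_iff, Fin.val_succ]
      omega
    have h2 := (hP 0 (Nat.zero_le _) i _).mp h1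
    have h3 : (P 0 i).val = m - 1 - i.val := by rw [← h2]
    have h4 : ¬ ((P 0 i).val + 1 = N) := by omega
    simp only [hX, coord, if_neg h4, h3]
    omega
  have hend : ∀ i : Fin m, X L i = (i.val : ℤ) - m := by
    intro i
    have h1 : s L ⟨i.val, by omega⟩ = i.succ := by
      rw [hsL]
      have : i.val < m := i.isLt
      simp only [endConf, this, dif_pos, Fin.ext_iff, Fin.val_succ]
    have h2 := (hP L le_rfl i _).mp h1
    have h3 : (P L i).val = i.val := by rw [← h2]
    have h4 : ¬ ((P L i).val + 1 = N) := by omega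
    simp only [hX, coord, if_neg h4, h3]
  have hmove : ∀ t < L, |X (t + 1) (μ t) - X t (μ t)| ≤ 1 :=
    fun t ht => coord_adj (hμ t ht).1
  have hstay : ∀ t < L, ∀ b, b ≠ μ t → X (t + 1) b = X t b := by
    intro t ht b hb
    simp only [hX]
    rw [(hμ t ht).2 b hb]
  have hcap : ∀ t ≤ L, ∀ r : ℕ,
      (univ.filter (fun i => (X t i).natAbs < 2 * r)).card ≤ 4 * r := by
    intro t ht r
    calc (univ.filter (fun i => (X t i).natAbs < 2 * r)).card
        ≤ (Finset.Ioc (-(2 * r : ℤ)) (2 * r)).card := by
          apply card_le_card_of_injOn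
            (fun i => if (P t i).val + 1 = N then (2 * r : ℤ) else ((P t i).val : ℤ) - m)
          · intro i hi
            simp only [mem_coe, mem_filter, mem_univ, true_and, hX, coord] at hi
            simp only [coe_Ioc, Set.mem_Ioc]
            split_ifs at hi ⊢ <;> omega
          · intro i hi j hj hij
            simp only [mem_coe, mem_filter, mem_univ, true_and, hX, coord] at hi hj
            apply hinj t ht
            rw [Fin.ext_iff]
            simp only at hij
            split_ifs at hi hj hij <;> omega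
      _ = 4 * r := by
          rw [Int.card_Ioc]
          omega
  have hmeet' : ∀ a b : Fin m, a < b → ∃ t ≤ L, X t a = 0 ∧ X t b = 0 := by
    intro a b hab
    have hab' : a.val < b.val := hab
    obtain ⟨t, _, h2, h3⟩ := exists_zero (fun t => X t a - X t b) 0 L (Nat.zero_le _)
      (by rw [hstart, hstart]; omega) (by rw [hend, hend]; omega) (by
        intro t _ ht
        have h1 := hmove t ht
        have h2 := hstay t ht
        by_cases ha : a = μ t
        · have hb : b ≠ μ t := by rintro rfl; exact absurd ha hab.ne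
          rw [h2 b hb, ha]
          rw [abs_le] at h1 ⊢
          omega
        · rw [h2 a ha]
          by_cases hb : b = μ t
          · rw [hb]
            rw [abs_le] at h1 ⊢
            omega
          · rw [h2 b hb]
            simp)
    have h4 : X t a = X t b := by omega
    have h5 : P t a ≠ P t b := fun h => hab.ne (hinj t h2 h)
    have h6 : (P t a).val ≠ (P t b).val := fun h => h5 (Fin.ext h)
    refine ⟨t, h2, ?_⟩
    simp only [hX, coord] at h4 ⊢
    split_ifs at h4 ⊢ <;> omega
  have hmeet : ∀ a b : Fin m, a ≠ b → ∃ t ≤ L, X t a = 0 ∧ X t b = 0 := by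
    intro a b hab
    rcases lt_or_gt_of_ne hab with h | h
    · exact hmeet' a b h
    · obtain ⟨t, h1, h2, h3⟩ := hmeet' b a h
      exact ⟨t, h1, h3, h2⟩
  exact total_bound L X μ hmove hstay hcap hmeet J hJ

end Lower

/-! ### Solvability -/

section Solvable

/-- `g` can be reached from `f`. -/
def Reach {V : Type} (G : SimpleGraph V) {n : ℕ} (f g : V → Fin (n + 1)) : Prop :=
  Relation.ReflTransGen (Move G) f g

lemma Reach.refl' {V : Type} (G : SimpleGraph V) {n : ℕ} (f : V → Fin (n + 1)) :
    Reach G f f := Relation.ReflTransGen.refl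

lemma Reach.trans' {V : Type} {G : SimpleGraph V} {n : ℕ} {f g h : V → Fin (n + 1)}
    (h1 : Reach G f g) (h2 : Reach G g h) : Reach G f h := Relation.ReflTransGen.trans h1 h2

lemma Reach.symm' {V : Type} {G : SimpleGraph V} {n : ℕ} {f g : V → Fin (n + 1)}
    (h : Reach G f g) : Reach G g f := by
  have hs : Std.Symm (Move G (n := n)) := ⟨by
    rintro f g ⟨u, v, huv, hu, hv, hgv, hgu, hw⟩
    exact ⟨v, u, huv.symm, by rw [hgv]; exact hu, hgu, hgv.symm, hv,
      fun w h1 h2 => (hw w h2 h1).symm⟩⟩
  exact (Relation.ReflTransGen.stdSymm (r := Move G (n := n))).symm _ _ h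

lemma Reach.solvableIn {V : Type} {G : SimpleGraph V} {n : ℕ} {f g : V → Fin (n + 1)}
    (h : Reach G f g) : ∃ L, SolvableIn G f g L := by
  unfold Reach at h
  induction h with
  | refl => exact ⟨0, fun _ => f, rfl, rfl, fun t ht => absurd ht (Nat.not_lt_zero t)⟩
  | @tail b c _ hbc ih =>
    obtain ⟨L, s, h0, hL, hs⟩ := ih
    refine ⟨L + 1, fun t => if t ≤ L then s t else c, ?_, ?_, ?_⟩
    · simp [h0]
    · simp
    · intro t ht
      by_cases h1 : t < L
      · have h2 : t ≤ L := h1.le
        have h3 : t + 1 ≤ L := h1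
        simp only [h2, h3, if_true]
        exact hs t h1
      · have h2 : t = L := by omega
        subst h2
        simp only [le_refl, if_true, Nat.not_succ_le_self, if_false, hL]
        exact hbc

variable {N m : ℕ}

/-- The configuration with the list `w` of contents along the path and `c` on the leaf. -/
def conf (N : ℕ) {m : ℕ} (w : List (Fin (m + 1))) (c : Fin (m + 1)) : Fin N → Fin (m + 1) :=
  fun v => if v.val + 1 = N then c else w.getD v.val 0

lemma step_right (A B : List (Fin (m + 1))) (a c : Fin (m + 1)) (h : A.length + 2 < N) :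
    Reach (tee N m) (conf N (A ++ a :: 0 :: B) c) (conf N (A ++ 0 :: a :: B) c) := by
  by_cases ha : a = 0
  · subst ha; exact Reach.refl' _ _
  apply Relation.ReflTransGen.single
  have hu : ¬ (A.length + 1 = N) := by omega
  have hv : ¬ (A.length + 1 + 1 = N) := by omega
  refine ⟨⟨A.length, by omega⟩, ⟨A.length + 1, by omega⟩, ?_, ?_, ?_, ?_, ?_, ?_⟩
  · rw [tee_adj]
    exact ⟨by rw [Ne, Fin.ext_iff]; simp only; omega, Or.inl ⟨rfl, by simp only; omega⟩⟩
  · simp only [conf, hu, if_false]
    rw [List.getD_append_right _ _ _ _ le_rfl]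
    simpa using ha
  · simp only [conf, hv, if_false]
    rw [List.getD_append_right _ _ _ _ (by omega)]
    simp
  · simp only [conf, hu, hv, if_false]
    rw [List.getD_append_right _ _ _ _ le_rfl, List.getD_append_right _ _ _ _ (by omega)]
    simp
  · simp only [conf, hu, if_false]
    rw [List.getD_append_right _ _ _ _ le_rfl]
    simp
  · intro w hwu hwv
    rw [Ne, Fin.ext_iff] at hwu hwv
    simp only at hwu hwv
    simp only [conf]
    by_cases hN : w.val + 1 = N
    · simp only [hN, if_true]
    · simp only [hN, if_false]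
      rcases lt_or_ge w.val A.length with h1 | h1
      · rw [List.getD_append _ _ _ _ h1, List.getD_append _ _ _ _ h1]
      · rw [List.getD_append_right _ _ _ _ h1, List.getD_append_right _ _ _ _ h1]
        obtain ⟨j, hj⟩ : ∃ j, w.val - A.length = j + 2 := ⟨w.val - A.length - 2, by omega⟩
        rw [hj]
        simp

lemma stub_in (hN : 2 * m + 2 ≤ N) (A B : List (Fin (m + 1))) (a : Fin (m + 1))
    (h : A.length = m) :
    Reach (tee N m) (conf N (A ++ a :: B) 0) (conf N (A ++ 0 :: B) a) := by
  by_cases ha : a = 0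
  · subst ha; exact Reach.refl' _ _
  apply Relation.ReflTransGen.single
  have hu : ¬ (m + 1 = N) := by omega
  have hv : N - 1 + 1 = N := by omega
  refine ⟨⟨m, by omega⟩, ⟨N - 1, by omega⟩, ?_, ?_, ?_, ?_, ?_, ?_⟩
  · rw [tee_adj]
    exact ⟨by rw [Ne, Fin.ext_iff]; simp only; omega,
      Or.inr (Or.inr (Or.inl ⟨rfl, by simp only; omega⟩))⟩
  · simp only [conf, hu, if_false]
    rw [List.getD_append_right _ _ _ _ h.le]
    simpa [h] using ha
  · simp only [conf, hv, if_true]
  · simp only [conf, hu, hv, if_false, if_true]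
    rw [List.getD_append_right _ _ _ _ h.le]
    simp [h]
  · simp only [conf, hu, if_false]
    rw [List.getD_append_right _ _ _ _ h.le]
    simp [h]
  · intro w hwu hwv
    rw [Ne, Fin.ext_iff] at hwu hwv
    simp only at hwu hwv
    simp only [conf]
    by_cases hN' : w.val + 1 = N
    · omega
    · simp only [hN', if_false]
      rcases lt_or_ge w.val A.length with h1 | h1
      · rw [List.getD_append _ _ _ _ h1, List.getD_append _ _ _ _ h1]
      · rw [List.getD_append_right _ _ _ _ h1, List.getD_append_right _ _ _ _ h1]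
        obtain ⟨j, hj⟩ : ∃ j, w.val - A.length = j + 1 := ⟨w.val - A.length - 1, by omega⟩
        rw [hj]
        simp

lemma conf_append_zero (A : List (Fin (m + 1))) (c : Fin (m + 1)) :
    conf N (A ++ [0]) c = conf N A c := by
  funext v
  simp only [conf]
  by_cases hN : v.val + 1 = N
  · simp only [hN, if_true]
  · simp only [hN, if_false]
    rcases lt_or_ge v.val A.length with h1 | h1
    · rw [List.getD_append _ _ _ _ h1]
    · rw [List.getD_append_right _ _ _ _ h1, List.getD_eq_default _ _ h1]
      rcases Nat.eq_zero_or_pos (v.val - A.length) with h2 | h2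
      · rw [h2]; simp
      · rw [List.getD_eq_default]
        simp only [List.length_cons, List.length_nil]
        omega

lemma insert_zero (l : List (Fin (m + 1))) : ∀ (A : List (Fin (m + 1))) (c : Fin (m + 1)),
    A.length + 1 + l.length + 1 ≤ N →
    Reach (tee N m) (conf N (A ++ l) c) (conf N (A ++ 0 :: l) c) := by
  induction l with
  | nil =>
    intro A c _
    rw [conf_append_zero, List.append_nil]
    exact Reach.refl' _ _
  | cons b l ih =>
    intro A c h
    simp only [List.length_cons] at h
    have h1 := ih (A ++ [b]) c (by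
      simp only [List.length_append, List.length_cons, List.length_nil]; omega)
    simp only [List.append_assoc, List.singleton_append] at h1
    exact h1.trans' (step_right A l b c (by omega))

lemma insert_zeros (k : ℕ) (A l : List (Fin (m + 1))) (c : Fin (m + 1))
    (h : A.length + k + l.length + 1 ≤ N) :
    Reach (tee N m) (conf N (A ++ l) c) (conf N (A ++ (List.replicate k 0 ++ l)) c) := by
  induction k with
  | zero => simpa using Reach.refl' _ _
  | succ k ih =>
    refine (ih (by omega)).trans' ?_
    rw [List.replicate_succ, List.cons_append]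
    apply insert_zero
    simp only [List.length_append, List.length_replicate]
    omega

lemma swap_adj (hN : 2 * m + 2 ≤ N) (A B : List (Fin (m + 1))) (a b : Fin (m + 1))
    (h : A.length + (B.length + 1 + 1) = m) :
    Reach (tee N m) (conf N (A ++ a :: b :: B) 0) (conf N (A ++ b :: a :: B) 0) := by
  obtain ⟨k, hk⟩ : ∃ k, A.length + k + 1 = m := ⟨m - 1 - A.length, by omega⟩
  set A' := A ++ List.replicate k 0 with hA'
  have hA'l : A'.length + 1 = m := by
    simp only [hA', List.length_append, List.length_replicate]; omega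
  have h1 : Reach (tee N m) (conf N (A ++ a :: b :: B) 0) (conf N (A' ++ a :: b :: B) 0) := by
    rw [hA', List.append_assoc]
    apply insert_zeros
    simp only [List.length_cons]
    omega
  have h2 : Reach (tee N m) (conf N (A' ++ a :: b :: B) 0)
      (conf N (A' ++ a :: b :: 0 :: B) 0) := by
    have := insert_zero (N := N) B (A' ++ [a, b]) 0 (by
      simp only [List.length_append, List.length_cons, List.length_nil]; omega)
    simpa using this
  have h3 : Reach (tee N m) (conf N (A' ++ a :: b :: 0 :: B) 0)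
      (conf N (A' ++ a :: 0 :: 0 :: B) b) := by
    have := stub_in hN (A' ++ [a]) (0 :: B) b (by
      simp only [List.length_append, List.length_cons, List.length_nil]; omega)
    simpa using this
  have h4 : Reach (tee N m) (conf N (A' ++ a :: 0 :: 0 :: B) b)
      (conf N (A' ++ 0 :: a :: 0 :: B) b) := step_right _ _ _ _ (by omega)
  have h5 : Reach (tee N m) (conf N (A' ++ 0 :: a :: 0 :: B) b)
      (conf N (A' ++ 0 :: 0 :: a :: B) b) := by
    have := step_right (N := N) (A' ++ [0]) B a b (by
      simp only [List.length_append, List.length_cons, List.length_nil]; omega)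
    simpa using this
  have h6 : Reach (tee N m) (conf N (A' ++ 0 :: 0 :: a :: B) b)
      (conf N (A' ++ 0 :: b :: a :: B) 0) := by
    have := (stub_in hN (A' ++ [0]) (a :: B) b (by
      simp only [List.length_append, List.length_cons, List.length_nil]; omega)).symm'
    simpa using this
  have h7 : Reach (tee N m) (conf N (A' ++ 0 :: b :: a :: B) 0)
      (conf N (A' ++ b :: a :: B) 0) := by
    refine (insert_zero _ _ _ ?_).symm'
    simp only [List.length_cons]
    omega
  have h8 : Reach (tee N m) (conf N (A' ++ b :: a :: B) 0) (conf N (A ++ b :: a :: B) 0) := by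
    rw [hA', List.append_assoc]
    refine (insert_zeros _ _ _ _ ?_).symm'
    simp only [List.length_cons]
    omega
  exact h1.trans' (h2.trans' (h3.trans' (h4.trans' (h5.trans' (h6.trans' (h7.trans' h8))))))

lemma perm_reach (hN : 2 * m + 2 ≤ N) {l l' : List (Fin (m + 1))} (hp : l.Perm l') :
    ∀ A : List (Fin (m + 1)), A.length + l.length = m →
      Reach (tee N m) (conf N (A ++ l) 0) (conf N (A ++ l') 0) := by
  induction hp with
  | nil => intro A _; exact Reach.refl' _ _
  | cons x _ ih =>
    intro A h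
    have := ih (A ++ [x]) (by
      simp only [List.length_append, List.length_cons, List.length_nil] at h ⊢; omega)
    simpa using this
  | swap x y l =>
    intro A h
    exact swap_adj hN A l y x (by simpa using h)
  | trans h1 _ ih1 ih2 =>
    intro A h
    exact (ih1 A h).trans' (ih2 A (by rw [← h1.length_eq]; exact h))

lemma start_eq_conf (hN : 2 * m + 2 ≤ N) :
    startConf N m = conf N (List.ofFn (fun i : Fin m => (⟨m - i.val, by omega⟩ : Fin (m + 1)))) 0 := by
  funext v
  simp only [conf, startConf]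
  by_cases h : v.val + 1 = N
  · simp only [h, if_true, Fin.ext_iff, Fin.val_zero]
    omega
  · simp only [h, if_false]
    rcases lt_or_ge v.val m with h1 | h1
    · rw [List.getD_eq_getElem _ _ (by simpa using h1)]
      simp
    · rw [List.getD_eq_default _ _ (by simpa using h1)]
      simp only [Fin.ext_iff, Fin.val_zero]
      omega

lemma end_eq_conf (hN : 2 * m + 2 ≤ N) :
    endConf N m = conf N (List.ofFn (fun i : Fin m => (⟨i.val + 1, by omega⟩ : Fin (m + 1)))) 0 := by
  funext v
  simp only [conf, endConf]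
  by_cases h : v.val + 1 = N
  · have h1 : ¬ v.val < m := by omega
    simp only [h, if_true, h1, dif_neg, not_false_eq_true]
  · simp only [h, if_false]
    rcases lt_or_ge v.val m with h1 | h1
    · rw [List.getD_eq_getElem _ _ (by simpa using h1)]
      simp [h1]
    · rw [List.getD_eq_default _ _ (by simpa using h1)]
      have h2 : ¬ v.val < m := by omega
      simp only [h2, dif_neg, not_false_eq_true]

lemma solvable (hN : 2 * m + 2 ≤ N) :
    ∃ L, SolvableIn (tee N m) (startConf N m) (endConf N m) L := by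
  apply Reach.solvableIn
  rw [start_eq_conf hN, end_eq_conf hN]
  have hp : (List.ofFn (fun i : Fin m => (⟨m - i.val, by omega⟩ : Fin (m + 1)))).Perm
      (List.ofFn (fun i : Fin m => (⟨i.val + 1, by omega⟩ : Fin (m + 1)))) := by
    have h1 := Equiv.Perm.ofFn_comp_perm (Fin.revPerm : Equiv.Perm (Fin m))
      (fun i : Fin m => (⟨i.val + 1, by omega⟩ : Fin (m + 1)))
    convert h1 using 2
    funext i
    simp only [Function.comp, Fin.revPerm_apply, Fin.ext_iff, Fin.val_rev]
    omega
  have := perm_reach hN hp [] (by simp)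
  simpa using this

end Solvable

/-! ### The theorem -/

lemma log_two_le_one : Real.log 2 ≤ 1 := by
  have := Real.log_two_lt_d9
  linarith

/-- There are a constant `c > 0` and, for all large `N`, instances on `N` vertices whose shortest
solution has length at least `c N ^ 2 log N`. -/
theorem result : ∃ c : ℝ, 0 < c ∧ ∃ N₀ : ℕ, ∀ N ≥ N₀,
    ∃ (n : ℕ) (G : SimpleGraph (Fin N)) (f g : Fin N → Fin (n + 1)),
      IsInstance G f g ∧ c * (N : ℝ) ^ 2 * Real.log N ≤ minMoves G f g := by
  refine ⟨1 / 3200, by norm_num, 2000, fun N hN => ?_⟩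
  obtain ⟨m, hm1, hm2⟩ : ∃ m, 2 * m + 2 ≤ N ∧ N ≤ 2 * m + 3 := ⟨(N - 2) / 2, by omega, by omega⟩
  have hm : 1 ≤ m := by omega
  have hk := longestIsthmus_tee hm hm1
  refine ⟨m, tee N m, startConf N m, endConf N m,
    ⟨tee_isTree hm hm1, isConfig_start hm1, isConfig_end hm1, by omega⟩, ?_⟩
  have hmem : minMoves (tee N m) (startConf N m) (endConf N m) ∈
      {L | SolvableIn (tee N m) (startConf N m) (endConf N m) L} := Nat.sInf_mem (solvable hm1)
  set L := minMoves (tee N m) (startConf N m) (endConf N m) with hL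
  -- the dyadic scales
  set K := Nat.log 2 m with hK
  have hK1 : 2 ^ K ≤ m := Nat.pow_log_le_self 2 (by omega)
  have hK2 : m < 2 ^ (K + 1) := Nat.lt_pow_succ_log_self (by norm_num) m
  have hK8 : 9 ≤ K := by
    by_contra hlt
    have : 2 ^ (K + 1) ≤ 2 ^ 9 := Nat.pow_le_pow_right (by norm_num) (by omega)
    norm_num at this
    omega
  have hJ : ∀ j < K - 2, 50 * (2 ^ j) ^ 2 ≤ m * (m - 1) := by
    intro j hj
    have h1 : 8 * 2 ^ j ≤ m := by
      calc 8 * 2 ^ j = 2 ^ (j + 3) := by rw [pow_add]; ring
        _ ≤ 2 ^ K := Nat.pow_le_pow_right (by norm_num) (by omega)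
        _ ≤ m := hK1
    have h2 : 7 * 2 ^ j ≤ m - 1 := by
      have : 1 ≤ 2 ^ j := Nat.one_le_two_pow
      omega
    calc 50 * (2 ^ j) ^ 2 ≤ (8 * 2 ^ j) * (7 * 2 ^ j) := by nlinarith [Nat.zero_le ((2 ^ j) ^ 2)]
      _ ≤ m * (m - 1) := Nat.mul_le_mul h1 h2
  have hmain := lower_bound hm hm1 L hmem (K - 2) hJ
  -- numerics
  have hmainR : ((K : ℝ) - 2) * ((m : ℝ) * ((m : ℝ) - 1)) ≤ 50 * (L : ℝ) := by
    have h1 : (((K - 2) * (m * (m - 1)) : ℕ) : ℝ) ≤ ((50 * L : ℕ) : ℝ) := by exact_mod_cast hmain
    push_cast [Nat.cast_sub (show 2 ≤ K by omega), Nat.cast_sub hm] at h1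
    exact h1
  have hNR : (N : ℝ) ≤ 2 * m + 3 := by exact_mod_cast hm2
  have hNpos : (2000 : ℝ) ≤ N := by exact_mod_cast hN
  have hKR : (9 : ℝ) ≤ K := by exact_mod_cast hK8
  have hlog : Real.log N ≤ (K : ℝ) + 3 := by
    have h1 : (N : ℝ) ≤ 2 ^ (K + 3) := by
      have : N ≤ 2 ^ (K + 3) := by
        have h2 : 2 ^ (K + 3) = 4 * 2 ^ (K + 1) := by rw [pow_add, pow_add]; ring
        omega
      exact_mod_cast this
    calc Real.log N ≤ Real.log (2 ^ (K + 3)) := Real.log_le_log (by linarith) h1
      _ = ((K : ℝ) + 3) * Real.log 2 := by rw [Real.log_pow]; push_cast; ring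
      _ ≤ ((K : ℝ) + 3) * 1 := mul_le_mul_of_nonneg_left log_two_le_one (by linarith)
      _ = (K : ℝ) + 3 := mul_one _
  have hlog0 : 0 ≤ Real.log N := Real.log_nonneg (by linarith)
  have h1 : Real.log N ≤ 2 * ((K : ℝ) - 2) := by linarith
  have h2 : (N : ℝ) / 4 ≤ m := by linarith
  have h3 : (N : ℝ) / 8 ≤ (m : ℝ) - 1 := by linarith
  have h4 : (N : ℝ) / 4 * ((N : ℝ) / 8) ≤ (m : ℝ) * ((m : ℝ) - 1) :=
    mul_le_mul h2 h3 (by linarith) (by linarith)
  have h5 : Real.log N / 2 * ((N : ℝ) / 4 * ((N : ℝ) / 8)) ≤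
      ((K : ℝ) - 2) * ((m : ℝ) * ((m : ℝ) - 1)) :=
    mul_le_mul (by linarith) h4 (by positivity) (by linarith)
  nlinarith [h5, hmainR]

end Pool.Agent.Results.MP_3627f5_co.WorstCaseLength
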